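import Pool.Agent.helper44.NLT.Spec

set_option autoImplicit false

open Complex Metric Set Filter Topology MeasureTheory MPS
open Pool.Agent.helper98.ILF Pool.Agent.helper16.Multibrot

noncomputable section

namespace NLT

lemma INT_filled_ball {n : ℕ} (hn : 2 ≤ n) {c : ℂ} (hc : ‖c‖ ≤ 2) : filled n c ⊆ ball 0 4 := by
  intro z hz
  rw [mem_ball_zero_iff]
  by_contra hlt
  rw [not_lt] at hlt
  have h1 := growth hn (c := c) (z := z) (by linarith)
  have h2 := hz 1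
  simp only [Function.iterate_one] at h2
  linarith

lemma INT_zero_mem {n : ℕ} (hn : 2 ≤ n) {c : ℂ} (hMBB : BR.MBB_stmt) (hc : c ∈ multibrot n) : (0 : ℂ) ∈ filled n c := by
  intro k
  have h := ((hMBB n c hn).1 hc).2 k
  have : ‖(fun z : ℂ => z ^ n + c)^[k] 0‖ ≤ 2 := h
  have := norm_nonneg c
  linarith

theorem INT (hSMA : SMA_stmt) (hSMC : SMC_stmt) (hAON : AON_stmt) (hCMB : CMB_stmt) (hFEQ : NLS.FEQ_stmt)
    (hLFI : NLF.LFI_stmt) (hMBB : BR.MBB_stmt) : INT_stmt := by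
  intro n c hn hc hlf
  obtain ⟨μ, hμ⟩ := hlf
  obtain ⟨hc3, hLF, hpos, -⟩ := hLFI n c μ hn hμ
  have hc2 : ‖c‖ ≤ 2 := ((hMBB n c hn).1 hc).1
  have hK : IsCompact (filled n c) := isCompact_filled n c
  have hne : (filled n c).Nonempty := ⟨0, INT_zero_mem hn hMBB hc⟩
  have hKb : filled n c ⊆ ball 0 4 := INT_filled_ball hn hc2
  have hinv : ∀ z, z ∈ filled n c ↔ z ^ n + c ∈ filled n c := by
    intro z
    have h := preimage_filled hn c
    have h2 := Set.ext_iff.1 h z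
    exact h2.symm
  have hsupp : ∀ z, μ z ≠ 0 → z ∈ filled n c := by
    intro z hz
    have h1 := hLF.julia z hz
    have h2 := juliaSet_subset hn c h1
    exact (isClosed_filled n c).frontier_subset h2
  obtain ⟨ψ, a, M, hz0, ha0, hM, hdif, hbd, hsym, hψ1, hfeq⟩ :=
    hFEQ n c μ hn hc3 hK hne hKb hinv hLF.meas hLF.bd hsupp hLF.inv
  have hS : Ser n c ψ a M := ⟨hn, hc, hz0, ha0, hM, hdif, hbd, hsym, hfeq⟩
  have hSC := hSMC n c ψ a M hS
  have hmem : ∀ t ∈ ball (0 : ℂ) 1, cc a t ∈ multibrot n := by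
    intro t ht
    obtain ⟨-, h2, h3, h4⟩ := hSMA n c ψ a M hS t ht
    exact hCMB n c (cc a t) (Ps ψ t) ⟨hn, hc, h2, (hSC.1 t ht).2, h3, h4⟩
  have ha1 : a 1 ≠ 0 := hAON n c ψ a M μ hS hLF hpos hψ1
  have han : AnalyticAt ℂ (cc a) 0 := hSC.2.1.analyticAt (ball_mem_nhds 0 one_pos)
  have hstr : HasStrictDerivAt (cc a) (a 1) 0 := by
    have h1 := han.hasStrictDerivAt
    rwa [hSC.2.2.2.deriv] at h1
  have hmap := hstr.map_nhds_eq ha1
  rw [hSC.2.2.1] at hmap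
  rw [mem_interior_iff_mem_nhds, ← hmap, mem_map]
  exact mem_of_superset (ball_mem_nhds 0 one_pos) hmem

end NLT
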